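import Pool.Agent.N783.CF.WR

/-! Project WR (helper783), leaf AA (helper574): every permutation of the roots of `φ f`. -/

set_option autoImplicit false
set_option linter.all false

open Polynomial NumberField
open scoped Classical

namespace Pool.Agent.N574.WR

open Pool.Agent.N783.PF (IsGen fF)
open Pool.Agent.N783.CF (S_AA Zr Sym)

/-- two algebraic closures -/
theorem iso (M Ω : Type) [Field M] [Field Ω] [IsAlgClosed Ω] (φ : M →+* Ω)
    (halg : ∀ z : Ω, ∃ p : M[X], p ≠ 0 ∧ eval₂ φ z p = 0) :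
    ∃ e : AlgebraicClosure M ≃+* Ω, ∀ m : M, e (algebraMap M (AlgebraicClosure M) m) = φ m := by
  letI : Algebra M Ω := φ.toAlgebra
  haveI h1 : Algebra.IsAlgebraic M Ω := ⟨fun z => by
    obtain ⟨p, hp, hz⟩ := halg z
    exact ⟨p, hp, hz⟩⟩
  haveI h2 : IsAlgClosure M Ω := ⟨inferInstance, h1⟩
  let e : AlgebraicClosure M ≃ₐ[M] Ω := IsAlgClosure.equiv M (AlgebraicClosure M) Ω
  exact ⟨e.toRingEquiv, fun m => e.commutes m⟩

theorem t_AA : S_AA := by
  intro g K _ _ M _ L _ f θ hG hirr hsym φ u hu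
  have hcom : ∀ r : K, φ (algebraMap K M r) = algebraMap K (AlgebraicClosure K) r :=
    fun r => φ.commutes r
  obtain ⟨e, he⟩ := iso M (AlgebraicClosure K) (φ : M →+* AlgebraicClosure K) (by
    intro z
    obtain ⟨p, hp, hz⟩ := (Algebra.IsAlgebraic.isAlgebraic (R := K) z)
    refine ⟨p.map (algebraMap K M), ?_, ?_⟩
    · exact (Polynomial.map_ne_zero_iff (algebraMap K M).injective).2 hp
    · rw [eval₂_map]
      have h1 : (φ : M →+* AlgebraicClosure K).comp (algebraMap K M) =
          algebraMap K (AlgebraicClosure K) := RingHom.ext hcom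
      rw [h1]
      exact hz)
  have he' : ∀ m : M, e (algebraMap M (AlgebraicClosure M) m) = φ m := he
  -- the roots
  have hroot : ∀ w : AlgebraicClosure M, aeval w (fF f) = 0 ↔ e w ∈ Zr M φ f := by
    intro w
    have h1 : e (aeval w (fF f)) =
        (f.map ((φ : M →+* AlgebraicClosure K).comp (algebraMap (𝓞 M) M))).eval (e w) := by
      have h2 : aeval w (fF f) = eval₂ (algebraMap M (AlgebraicClosure M)) w (fF f) := rfl
      rw [h2]
      have h3 := Polynomial.hom_eval₂ (fF f) (algebraMap M (AlgebraicClosure M))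
        (e : AlgebraicClosure M →+* AlgebraicClosure K) w
      have h4 : (e : AlgebraicClosure M →+* AlgebraicClosure K).comp
          (algebraMap M (AlgebraicClosure M)) = (φ : M →+* AlgebraicClosure K) :=
        RingHom.ext he
      rw [h4] at h3
      refine h3.trans ?_
      rw [← Polynomial.map_map, eval_map]
      rfl
    constructor
    · intro h
      show _ = _
      rw [← h1, h, map_zero]
    · intro h
      have h5 : e (aeval w (fF f)) = 0 := h1.trans h
      exact (map_eq_zero_iff e e.injective).1 h5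
  have hmonF : (fF f).Monic := hG.mon.map _
  -- embeddings
  have hext : ∀ χ χ' : L →ₐ[M] AlgebraicClosure M, χ θ = χ' θ → χ = χ' := by
    intro χ χ' h
    ext y
    obtain ⟨c, rfl⟩ := hG.gen y
    simp only [map_sum, map_mul, map_pow, h, AlgHom.commutes]
  have hval : ∀ χ : L →ₐ[M] AlgebraicClosure M, e (χ θ) ∈ Zr M φ f := by
    intro χ
    rw [← hroot, aeval_algHom_apply, hG.root, map_zero]
  have hemb : ∀ z ∈ Zr M φ f, ∃ χ : L →ₐ[M] AlgebraicClosure M, e (χ θ) = z := by
    intro z hz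
    have hw : aeval (e.symm z) (fF f) = 0 := by
      rw [hroot, RingEquiv.apply_symm_apply]
      exact hz
    have hal : IsAlgebraic M (θ : AlgebraicClosure M) := Algebra.IsAlgebraic.isAlgebraic _
    have hr0 : aeval (θ : AlgebraicClosure M) (fF f) = 0 := by
      have h1 := congrArg L.val hG.root
      rw [map_zero, ← aeval_algHom_apply] at h1
      exact h1
    have hmp : minpoly M (θ : AlgebraicClosure M) = fF f :=
      (minpoly.eq_of_irreducible_of_monic hirr hr0 hmonF).symm
    have hev : aeval (e.symm z) (minpoly M (θ : AlgebraicClosure M)) = 0 := by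
      rw [hmp]
      exact hw
    obtain ⟨τ, hτ⟩ := minpoly.exists_algEquiv_of_root' hal hev
    refine ⟨τ.toAlgHom.comp L.val, ?_⟩
    have h2 : (τ.toAlgHom.comp L.val) θ = e.symm z := hτ
    rw [h2, RingEquiv.apply_symm_apply]
  have hT : ∀ χ : L →ₐ[M] AlgebraicClosure M, ∃ χ' : L →ₐ[M] AlgebraicClosure M,
      e (χ' θ) = u (e (χ θ)) := fun χ => hemb _ (hu.mapsTo (hval χ))
  choose T hT using hT
  have hTi : Function.Injective T := by
    intro χ χ' h
    apply hext
    apply e.injective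
    apply hu.injOn (hval χ) (hval χ')
    rw [← hT, ← hT, h]
  have hTs : Function.Surjective T := by
    intro χ''
    obtain ⟨z, hz, hz2⟩ := hu.surjOn (hval χ'')
    obtain ⟨χ, rfl⟩ := hemb z hz
    refine ⟨χ, hext _ _ (e.injective ?_)⟩
    rw [hT, hz2]
  obtain ⟨σ', hσ'⟩ := hsym (Equiv.ofBijective T ⟨hTi, hTs⟩)
  have hσ2 : ∀ χ : L →ₐ[M] AlgebraicClosure M, σ' (χ θ) = (T χ) θ := by
    intro χ
    have h1 : T χ = σ'.toAlgHom.comp χ := hσ' χ
    rw [h1]
    rfl
  have hfix : ∀ m : M, e (σ' (e.symm (φ m))) = φ m := by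
    intro m
    rw [← he', RingEquiv.symm_apply_apply, AlgEquiv.commutes]
  obtain ⟨σ, hσ⟩ : ∃ σ : AlgebraicClosure K ≃ₐ[K] AlgebraicClosure K,
      ∀ z, σ z = e (σ' (e.symm z)) := by
    refine ⟨AlgEquiv.ofRingEquiv (f := (e.symm.trans (σ' : AlgebraicClosure M ≃+*
      AlgebraicClosure M)).trans e) ?_, fun z => rfl⟩
    intro r
    show e (σ' (e.symm (algebraMap K (AlgebraicClosure K) r))) = _
    rw [← hcom, hfix]
  refine ⟨σ, ?_, ?_⟩
  · refine AlgHom.ext fun m => ?_
    show σ (φ m) = φ m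
    rw [hσ, hfix]
  · intro z hz
    obtain ⟨χ, rfl⟩ := hemb z hz
    rw [hσ, RingEquiv.symm_apply_apply, hσ2, hT]

end Pool.Agent.N574.WR
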